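import Pool.Agent.H37.CTR.Stmts

/-! # Row SQ2 of the board `ctr`: semiregular automorphisms -/

set_option autoImplicit false

namespace Pool.CND

open Finset

/-- A map all of whose orbits on `S` have length `N`. -/
private lemma sq2_free {Y : Type} [DecidableEq Y] (φ : Y → Y) (N : ℕ) (hN : 0 < N) :
    ∀ (k : ℕ) (S : Finset Y), S.card = k → (∀ y ∈ S, φ y ∈ S) →
      (∀ y ∈ S, ∀ r : ℕ, φ^[r] y = y ↔ N ∣ r) → N ∣ S.card := by
  intro k
  induction k using Nat.strong_induction_on with
  | _ k ih =>
    intro S hk hc hf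
    rcases S.eq_empty_or_nonempty with rfl | ⟨y, hy⟩
    · simp
    have hit : ∀ r : ℕ, φ^[r] y ∈ S := by
      intro r
      induction r with
      | zero => exact hy
      | succ r ih' =>
        rw [Function.iterate_succ_apply']
        exact hc _ ih'
    have hOS : (range N).image (fun i => φ^[i] y) ⊆ S := by
      intro z hz
      rw [mem_image] at hz
      obtain ⟨i, _, rfl⟩ := hz
      exact hit i
    have hmod : ∀ r : ℕ, φ^[r] y ∈ (range N).image (fun i => φ^[i] y) := by
      intro r
      have e2 : φ^[N * (r / N)] y = y := (hf y hy _).2 (Dvd.intro _ rfl)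
      have e1 : φ^[r] y = φ^[r % N] y := by
        have e3 : φ^[r % N + N * (r / N)] y = φ^[r % N] y := by
          rw [Function.iterate_add_apply, e2]
        rwa [Nat.mod_add_div] at e3
      rw [e1, mem_image]
      exact ⟨r % N, mem_range.2 (Nat.mod_lt _ hN), rfl⟩
    have hOc : ((range N).image (fun i => φ^[i] y)).card = N := by
      have key : ∀ i j, i ≤ j → j < N → φ^[i] y = φ^[j] y → i = j := by
        intro i j hij hj h
        have e1 : φ^[N - i + j] y = y := by
          rw [Function.iterate_add_apply, ← h, ← Function.iterate_add_apply]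
          have h3 : N - i + i = N := by omega
          rw [h3]
          exact (hf y hy N).2 (dvd_refl N)
        have e2 := (hf y hy _).1 e1
        have e3 : N - i + j = N + (j - i) := by omega
        rw [e3, Nat.dvd_add_right (dvd_refl N)] at e2
        have e4 := Nat.eq_zero_of_dvd_of_lt e2 (by omega)
        omega
      rw [card_image_of_injOn, card_range]
      intro i hi j hj h
      rw [coe_range, Set.mem_Iio] at hi hj
      rcases le_total i j with hij | hij
      · exact key i j hij hj h
      · exact (key j i hij hi h.symm).symm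
    have hadd := card_sdiff_add_card_eq_card hOS
    have hrest : N ∣ (S \ (range N).image (fun i => φ^[i] y)).card := by
      refine ih (S \ (range N).image (fun i => φ^[i] y)).card ?_
        (S \ (range N).image (fun i => φ^[i] y)) rfl ?_ ?_
      · omega
      · intro z hz
        rw [mem_sdiff] at hz ⊢
        refine ⟨hc z hz.1, fun h => hz.2 ?_⟩
        rw [mem_image] at h
        obtain ⟨i, _, hi⟩ := h
        have e1 : φ^[N - 1 + 1] z = z := (hf z hz.1 _).2 (by
          have h3 : N - 1 + 1 = N := by omega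
          rw [h3])
        rw [Function.iterate_succ_apply, ← hi, ← Function.iterate_add_apply] at e1
        rw [← e1]
        exact hmod _
      · intro z hz
        exact hf z (mem_sdiff.1 hz).1
    rw [← hadd]
    exact dvd_add hrest (by rw [hOc])

theorem sq2_thm : S_SQ2 := by
  classical
  intro p G _ _ g C hp hC hEA hgC hYS
  have : Fintype G := Fintype.ofFinite G
  have : Fact p.Prime := ⟨hp⟩
  obtain ⟨hexp, hcomm⟩ := hEA
  -- powers of `g` normalise `C`
  obtain ⟨c₀, hc₀, hc₀1⟩ : ∃ c ∈ C, c ≠ 1 := (Subgroup.ne_bot_iff_exists_ne_one.1 hC).elim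
    (fun c hc => ⟨c.1, c.2, fun h => hc (Subtype.ext h)⟩)
  -- the finset
  let CF : Finset G := univ.filter (fun c => c ∈ C)
  have hCF : ∀ c, c ∈ CF ↔ c ∈ C := by
    intro c
    simp only [CF, mem_filter, mem_univ, true_and]
  have hCcard : Nat.card C = CF.card := by
    rw [Nat.card_eq_fintype_card, Fintype.card_subtype]
  -- `|C|` is a power of `p`
  obtain ⟨m, hm⟩ : ∃ m, CF.card = p ^ m := by
    have h1 : IsPGroup p C := by
      intro c
      refine ⟨1, Subtype.ext ?_⟩
      rw [pow_one]
      exact hexp c.1 c.2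
    obtain ⟨k, hk⟩ := IsPGroup.iff_card.1 h1
    exact ⟨k, by rw [← hk, hCcard]⟩
  have h1C : (1 : G) ∈ CF := (hCF 1).2 C.one_mem
  have hm1 : 1 ≤ m := by
    by_contra h
    have h0 : m = 0 := by omega
    rw [h0, pow_zero, card_eq_one] at hm
    obtain ⟨y, hy⟩ := hm
    have e1 : (1 : G) = y := by
      have e3 := h1C
      rw [hy] at e3
      exact mem_singleton.1 e3
    have e2 : c₀ = y := by
      have e3 : c₀ ∈ CF := (hCF _).2 hc₀
      rw [hy] at e3
      exact mem_singleton.1 e3
    exact hc₀1 (e2.trans e1.symm)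
  refine ⟨m, hm1, hCcard.trans hm, ?_⟩
  -- the order of `g` on `C`
  have hexN : ∃ N : ℕ, 1 ≤ N ∧ ∀ w ∈ C, g ^ N * w = w * g ^ N := by
    refine ⟨orderOf g, orderOf_pos g, ?_⟩
    intro w _
    rw [pow_orderOf_eq_one, one_mul, mul_one]
  obtain ⟨N, ⟨hN1, hN⟩, hNmin⟩ : ∃ N : ℕ,
      (1 ≤ N ∧ ∀ w ∈ C, g ^ N * w = w * g ^ N) ∧
      ∀ r, 1 ≤ r → (∀ w ∈ C, g ^ r * w = w * g ^ r) → N ≤ r :=
    ⟨Nat.find hexN, Nat.find_spec hexN, fun r h1 h2 => Nat.find_min' hexN ⟨h1, h2⟩⟩
  have hNq : ∀ q : ℕ, ∀ w ∈ C, g ^ (N * q) * w = w * g ^ (N * q) := by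
    intro q
    induction q with
    | zero => intro w _; simp
    | succ q ih =>
      intro w hw
      have e1 : g ^ (N * (q + 1)) = g ^ N * g ^ (N * q) := by
        rw [← pow_add]
        congr 1
        ring
      rw [e1, mul_assoc, ih w hw, ← mul_assoc, hN w hw, mul_assoc]
  have hNd : ∀ w ∈ C, w ≠ 1 → ∀ r : ℕ, g ^ r * w = w * g ^ r ↔ N ∣ r := by
    intro w hw hw1 r
    constructor
    · intro h
      have h2 := hYS r ⟨w, hw, hw1, h⟩
      rcases Nat.eq_zero_or_pos (r % N) with h0 | h0
      · exact Nat.dvd_of_mod_eq_zero h0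
      · have e4 := Nat.mod_lt r hN1
        have e3 := hNmin (r % N) h0 (by
          intro v hv
          have e5 : g ^ r = g ^ (r % N) * g ^ (N * (r / N)) := by
            rw [← pow_add, Nat.mod_add_div]
          have e6 := h2 v hv
          rw [e5] at e6
          refine mul_right_cancel (b := g ^ (N * (r / N))) ?_
          calc g ^ (r % N) * v * g ^ (N * (r / N))
              = g ^ (r % N) * (v * g ^ (N * (r / N))) := mul_assoc _ _ _
            _ = g ^ (r % N) * (g ^ (N * (r / N)) * v) := by rw [hNq _ v hv]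
            _ = g ^ (r % N) * g ^ (N * (r / N)) * v := (mul_assoc _ _ _).symm
            _ = v * (g ^ (r % N) * g ^ (N * (r / N))) := e6
            _ = v * g ^ (r % N) * g ^ (N * (r / N)) := (mul_assoc _ _ _).symm)
        omega
    · rintro ⟨q, rfl⟩
      exact hNq q w hw
  -- conjugation
  have hit : ∀ (r : ℕ) (w : G), (fun w : G => g * w * g⁻¹)^[r] w =
      g ^ r * w * (g ^ r)⁻¹ := by
    intro r
    induction r with
    | zero => intro w; simp
    | succ r ih =>
      intro w
      rw [Function.iterate_succ_apply', ih, pow_succ']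
      group
  have hfr : ∀ w ∈ C, w ≠ 1 → ∀ r : ℕ,
      (fun w : G => g * w * g⁻¹)^[r] w = w ↔ N ∣ r := by
    intro w hw hw1 r
    rw [hit, ← hNd w hw hw1 r]
    exact mul_inv_eq_iff_eq_mul
  have hne1 : ∀ w : G, w ≠ 1 → g * w * g⁻¹ ≠ 1 := by
    intro w hw h
    apply hw
    rw [mul_inv_eq_one] at h
    exact mul_eq_left.1 h
  have hdC : N ∣ (CF.erase 1).card := by
    refine sq2_free (fun w : G => g * w * g⁻¹) N hN1 _ _ rfl ?_ ?_
    · intro w hw
      rw [mem_erase, hCF] at hw ⊢
      exact ⟨hne1 w hw.1, hgC w hw.2⟩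
    · intro w hw
      rw [mem_erase, hCF] at hw
      exact hfr w hw.2 hw.1
  rw [card_erase_of_mem h1C, hm] at hdC
  intro x hx
  obtain ⟨q, hq⟩ := hdC
  have := hNq q x hx
  rw [← hq] at this
  exact this

end Pool.CND
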